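import Pool.Agent.Hx53.TNHomeo

/-!
# The two-number of a compact symmetric space is not its total mod 2 Betti number

Let `M` be the set of the unit decomposable tensors `x ⊗ y ⊗ z` of `ℝ² ⊗ ℝ³ ⊗ ℝ⁴`, i.e. the
quotient of `S¹ × S² × S³` by the group of the sign changes of an even number of the factors, and
let `N` be the product of the circle with the set of unit decomposable tensors of `ℝ³ ⊗ ℝ⁴`. Both
are connected compact symmetric spaces (the geodesic symmetry at `x ⊗ y ⊗ z` is `s_x ⊗ s_y ⊗ s_z`),
and `x ⊗ y ⊗ z ↦ (x², y ⊗ x̄ z)` (with `ℝ² = ℂ`, `ℝ⁴ = ℂ²`) is a homeomorphism of `M` onto `N`.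

Two points of an antipodal set of `M` have representatives `(x, y, z)`, `(x', y', z')` such that
`x ∥ x'` or `x ⊥ x'`, similarly for `y` and `z`, and the number of orthogonal pairs is even. A
counting argument shows that an antipodal set of `M` has at most 8 points. The 12 points
`(± 1, ± e_i ⊗ f_i)` form an antipodal set of `N`. So the two-number is not a homeomorphism
invariant, and it differs from the total mod 2 Betti number for `M` or for `N`.

The definitions are in `Pool/Agent/Hx53/TNDefs.lean`; `M` and `N` are `spaceA` and `spaceB` in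
`Pool/Agent/Hx53/TNPair.lean`.
-/

set_option autoImplicit false

namespace Pool.Agent.Results.MP_efd99a_gt.TwoNumberNotBetti

open Pool.Agent.Hx53.TN

/-- **The two-number is not the total mod 2 Betti number.** There are homeomorphic connected
compact symmetric spaces `M` and `N` of dimension `6` with two-numbers at most `8` and at least
`12`; hence it is not true that the two-number of every connected compact symmetric space is its
total mod 2 Betti number. -/
theorem result :
    (∃ (E F : Type) (_ : NormedAddCommGroup E) (_ : InnerProductSpace ℝ E)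
      (_ : FiniteDimensional ℝ E) (_ : NormedAddCommGroup F) (_ : InnerProductSpace ℝ F)
      (_ : FiniteDimensional ℝ F) (M : SymmetricSpace E) (N : SymmetricSpace F),
      M.dim = 6 ∧ N.dim = 6 ∧ Nonempty (M.carrier ≃ₜ N.carrier) ∧
        twoNumber M ≤ 8 ∧ 12 ≤ twoNumber N) ∧
    ¬ ∀ (E : Type) [NormedAddCommGroup E] [InnerProductSpace ℝ E] [FiniteDimensional ℝ E]
      (M : SymmetricSpace E), twoNumber M = totalBetti M.carrier := by
  have hdim : Model.dm ℂ R3 C2 = 6 := by
    unfold Model.dm
    rw [Complex.finrank_real_complex, finrank_euclideanSpace, Fintype.card_fin,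
      (WithLp.linearEquiv 2 ℝ (ℂ × ℂ)).finrank_eq, Module.finrank_prod,
      Complex.finrank_real_complex]
  refine ⟨⟨_, _, inferInstance, inferInstance, inferInstance, inferInstance, inferInstance,
    inferInstance, spaceA, spaceB, hdim, hdim, homeo, two_le, le_two⟩, fun h => ?_⟩
  obtain ⟨e⟩ := homeo
  have h1 := h _ spaceA
  have h2 := h _ spaceB
  rw [← totalBetti_eq e, ← h1] at h2
  have h3 : (12 : ℕ∞) ≤ 8 := le_two.trans (h2.le.trans two_le)
  norm_num at h3

end Pool.Agent.Results.MP_efd99a_gt.TwoNumberNotBetti
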